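import Pool.Agent.H.MP_152bd8_lc.I

/-! The finite 0-simple semigroups over a pseudovariety of groups with decidable universal theory
form a completely solvable class. -/

namespace Pool.Agent.Results.MP_152bd8_lc.Q1Yes

open Pool.Agent.H.MP_152bd8_lc

theorem result (V : FinGp → Prop) (hV : PsV V) (h : DecUniv V) : CompletelySolvable (ZV V) :=
  main hV h

end Pool.Agent.Results.MP_152bd8_lc.Q1Yes
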